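import Pool.Agent.V11250.ZRamsey

/-!
# MP_5814e0_lc, Q1: answer yes

The Fraisse structure `ZM` of the integers with the relations `y = x + n`, the one point structure
`A` and the structure `B` on the two points `0, 1`: every externally definable colouring of the
points is eventually constant, so some copy `{t, t + 1}` of `B` is monochromatic; but on each
finite set `C` the colouring by parity is externally definable.
-/

set_option autoImplicit false
set_option linter.style.haveILetI false

namespace Pool.Agent.Results.MP_5814e0_lc.NoFiniteWitness

open FirstOrder FirstOrder.Language Pool.Agent.V11250.TypesOver Pool.Agent.V11250.ZStruct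

/-- `M →ext (B)^a_2`: for each externally definable colouring with two colours of the copies of
`A` in `M` there is a copy of `B` in `M` which is monochromatic. -/
def ArrowM (L : FirstOrder.Language.{0, 0}) (M A B : Type) [L.Structure M] [L.Structure A]
    [L.Structure B] : Prop :=
  ∀ χ : (A ↪[L] M) → Fin 2, ExtDef L M A 2 χ →
    ∃ h : B ↪[L] M, ∀ f f' : A ↪[L] B, χ (h.comp f) = χ (h.comp f')

/-- `C →ext (B)^a_2` (with respect to `M`): for each copy of `C` in `M` and each externally
definable colouring with two colours of the copies of `A` in `M` there is a copy of `B` inside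
this copy of `C` which is monochromatic. -/
def ArrowC (L : FirstOrder.Language.{0, 0}) (M A B C : Type) [L.Structure M] [L.Structure A]
    [L.Structure B] [L.Structure C] : Prop :=
  ∀ c : C ↪[L] M, ∀ χ : (A ↪[L] M) → Fin 2, ExtDef L M A 2 χ →
    ∃ h : B ↪[L] C, ∀ f f' : A ↪[L] B, χ (c.comp (h.comp f)) = χ (c.comp (h.comp f'))

/-- The structure on `A` induced by the map `j` to the integers. -/
@[reducible] def ind {A : Type} (j : A → ℤ) : (LB ℤ).Structure A :=
  binStr fun n a b => j b = j a + n

/-- An injective map is an embedding of the induced structure. -/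
def indEmb {A : Type} (j : A → ℤ) (hj : Function.Injective j) :
    letI := zm; letI := ind j; A ↪[LB ℤ] ℤ :=
  letI := zm
  letI := ind j
  { toFun := j
    inj' := hj
    map_fun' := fun f => Empty.elim f
    map_rel' := by
      intro n r v
      cases r with
      | rel x => exact Iff.rfl }

/-- There are a Fraisse structure `M` (a countably infinite ultrahomogeneous structure in a
countable relational language) and finite `A`, `B` in its age such that `M →ext (B)^a_2` but no
finite `C` in the age of `M` satisfies `C →ext (B)^a_2`. -/
theorem result : ∃ (L : FirstOrder.Language.{0, 0}) (_ : L.IsRelational)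
    (_ : Countable (Σ n, L.Relations n)) (M : Type) (_ : L.Structure M),
    Countable M ∧ Infinite M ∧ L.IsUltrahomogeneous M ∧
    ∃ (A B : Type) (_ : L.Structure A) (_ : L.Structure B),
      Finite A ∧ Finite B ∧ Nonempty (A ↪[L] M) ∧ Nonempty (B ↪[L] M) ∧
      ArrowM L M A B ∧
      ∀ (C : Type) (_ : L.Structure C), Finite C → Nonempty (C ↪[L] M) → ¬ ArrowC L M A B C := by
  classical
  letI := zm
  letI iA : (LB ℤ).Structure Unit := ind fun _ => 0
  letI iB : (LB ℤ).Structure Bool := ind fun b => if b then 1 else 0
  have hinjB : Function.Injective fun b : Bool => if b then (1 : ℤ) else 0 := by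
    intro a b h
    cases a <;> cases b <;> simp_all
  have eA : Nonempty (Unit ↪[LB ℤ] ℤ) := ⟨indEmb (fun _ => 0) (fun _ _ _ => rfl)⟩
  have eB : Nonempty (Bool ↪[LB ℤ] ℤ) := ⟨indEmb _ hinjB⟩
  refine ⟨LB ℤ, inferInstance, inferInstance, ℤ, zm, inferInstance, inferInstance,
    ultrahomogeneous good_zm, Unit, Bool, iA, iB, inferInstance, inferInstance, eA, eB, ?_, ?_⟩
  · intro χ hχ
    exact zm_edrp Unit Bool eA eB 2 (by norm_num) χ hχ
  · intro C _ _ hCne hC
    obtain ⟨c⟩ := hCne
    -- the even elements of the copy of `C`
    let S : Finset ℤ := (Set.finite_range c).toFinset.filter (fun z => Even z)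
    let e : Fin S.card → ℤ := fun i => (S.equivFin.symm i : ℤ)
    let φ : (LB ℤ).Formula (Fin S.card ⊕ Unit) :=
      Formula.iSup fun i : Fin S.card =>
        (Term.var (Sum.inl i)).equal (Term.var (Sum.inr ()))
    have hφ : ∀ x : ℤ, φ.Realize (Sum.elim e fun _ => x) ↔ x ∈ S := by
      intro x
      simp only [φ, Formula.realize_iSup, Formula.realize_equal, Term.realize_var]
      constructor
      · rintro ⟨i, hi⟩
        have : e i = x := hi
        rw [← this]
        exact (S.equivFin.symm i).2
      · intro hx
        refine ⟨S.equivFin ⟨x, hx⟩, ?_⟩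
        show e _ = x
        simp [e]
    let χ : (Unit ↪[LB ℤ] ℤ) → Fin 2 := fun f => if f () ∈ S then 1 else 0
    have hext : ExtDef (LB ℤ) ℤ Unit 2 χ := by
      refine ⟨ℤ, zm, ElementaryEmbedding.refl (LB ℤ) ℤ, S.card, e, ![φ.not, φ], ?_⟩
      intro f i
      have e1 : (fun a : Unit => (ElementaryEmbedding.refl (LB ℤ) ℤ) (f a)) =
          fun _ => f () := by
        funext a
        rfl
      rw [e1]
      fin_cases i
      · simp only [χ]
        rw [show (![φ.not, φ] : Fin 2 → _) ⟨0, by norm_num⟩ = φ.not from rfl,
          Formula.realize_not, hφ]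
        by_cases hc : f () ∈ S
        · simp [hc]
        · simp [hc]
      · simp only [χ]
        rw [show (![φ.not, φ] : Fin 2 → _) ⟨1, by norm_num⟩ = φ from rfl, hφ]
        by_cases hc : f () ∈ S
        · simp [hc]
        · simp [hc]
    obtain ⟨h, hh⟩ := hC c χ hext
    let pt : Bool → (Unit ↪[LB ℤ] Bool) := fun b =>
      { toFun := fun _ => b
        inj' := fun _ _ _ => rfl
        map_fun' := fun f => Empty.elim f
        map_rel' := by
          intro n r v
          cases r with
          | rel x =>
            show ((if b then (1 : ℤ) else 0) = (if b then (1 : ℤ) else 0) + x) ↔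
              ((0 : ℤ) = 0 + x)
            constructor <;> intro h <;> linarith }
    have h1 := hh (pt false) (pt true)
    have h2 : c (h true) = c (h false) + 1 := by
      have := emb_eq good_zm (A := Bool) (indEmb _ hinjB) (c.comp h) false true
      have h3 : (indEmb (fun b : Bool => if b then (1 : ℤ) else 0) hinjB) true -
        (indEmb (fun b : Bool => if b then (1 : ℤ) else 0) hinjB) false = 1 := by
        show (if true then (1 : ℤ) else 0) - (if false then (1 : ℤ) else 0) = 1
        norm_num
      rw [h3] at this
      exact this
    have hS : ∀ b : Bool, (c (h b) ∈ S ↔ Even (c (h b))) := by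
      intro b
      simp only [S, Finset.mem_filter, Set.Finite.mem_toFinset, Set.mem_range]
      exact ⟨fun h => h.2, fun h' => ⟨⟨_, rfl⟩, h'⟩⟩
    have h4 : χ (c.comp (h.comp (pt false))) = if Even (c (h false)) then 1 else 0 := by
      show (if c (h false) ∈ S then (1 : Fin 2) else 0) = _
      simp only [hS]
    have h5 : χ (c.comp (h.comp (pt true))) = if Even (c (h true)) then 1 else 0 := by
      show (if c (h true) ∈ S then (1 : Fin 2) else 0) = _
      simp only [hS]
    rw [h4, h5, h2] at h1
    by_cases hev : Even (c (h false))
    · rw [if_pos hev, if_neg (by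
        rw [Int.not_even_iff_odd]
        exact hev.add_one)] at h1
      exact absurd h1 (by norm_num)
    · rw [if_neg hev, if_pos (by
        rw [Int.not_even_iff_odd] at hev
        exact hev.add_one)] at h1
      exact absurd h1 (by norm_num)

end Pool.Agent.Results.MP_5814e0_lc.NoFiniteWitness
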